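import Pool.Agent.H76.GD.Law
import Pool.Graph.R_pool_sql_team_seeded_b677cdb8.E8helper66.GB.U3
import Pool.Graph.R_pool_sql_team_seeded_b677cdb8.E8helper66.GB.Estw
import Pool.Graph.R_pool_sql_team_seeded_b677cdb8.E8helper66.GB.Quad
import Pool.Graph.R_pool_sql_team_seeded_b677cdb8.E8helper77.GB.Rec
import Pool.Graph.R_pool_sql_team_seeded_b677cdb8.E8helper64.GB.Rel
import Pool.Graph.R_pool_sql_team_seeded_b677cdb8.E8helper23.GB.Core
import Pool.Graph.R_pool_sql_team_seeded_b677cdb8.E8helper64.GB.Pig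
import Pool.Graph.R_pool_sql_team_seeded_b677cdb8.E8helper62.GB.CS
import Pool.Graph.R_pool_sql_team_seeded_b677cdb8.E8helper97.GB.CST
import Pool.Graph.R_pool_sql_team_seeded_b677cdb8.E8helper75.GB.Tii
import Pool.Graph.R_pool_sql_team_seeded_b677cdb8.E8helper97.GB.TI2
import Pool.Graph.R_pool_sql_team_seeded_b677cdb8.E8helper77.GB.Lam
import Pool.Graph.R_pool_sql_team_seeded_b677cdb8.E8helper70.GB.LZ
import Pool.Graph.R_pool_sql_team_seeded_b677cdb8.E8helper81.GB.Est
import Pool.Graph.R_pool_sql_team_seeded_b677cdb8.E8helper64.GB.Est3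
import Pool.Graph.R_pool_sql_team_seeded_b677cdb8.E8helper54.GB.Loc
import Pool.Graph.R_pool_sql_team_seeded_b677cdb8.E8helper98.GB.Two
import Pool.Graph.R_pool_sql_team_seeded_b677cdb8.E8helper77.GB.Loc3
import Pool.Graph.R_pool_sql_team_seeded_b677cdb8.E8helper98.GB.Br
import Pool.Graph.R_seed8.R521.GG.Fin
import Pool.Graph.R_seed8.R521.GG.Mert
import Pool.Graph.R_seed8.R521.GG.B
import Pool.Graph.R_seed8.R521.GG.Mom
import Pool.Graph.R_seed8.R521.GG.Codeg
import Pool.Graph.R_seed8.R521.GG.Wsum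
import Pool.Graph.R_seed8.R906.GG.Gold
import Pool.Graph.R_seed8.R906.GG.Twin

/-!
# The exact law of the distances in the Goldbach graphs

For almost all pairs of vertices of the finite Goldbach graph `G_n` and of the finite near Goldbach graph `G(n)`
the distance is `predicted a b`, an explicit function of the residues of the two vertices modulo `60`. The
distance is longer than predicted for at most `n ^ 2 / (log n) ^ U` pairs (for every `U`) and shorter than
predicted for `(8 / 3) n ^ 2 / log n + O(n ^ 2 / (log n) ^ 2)` pairs. In particular the distances `2, 3, 4, 5`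
have the limiting proportions `5 / 18, 121 / 450, 2 / 9, 52 / 225`.
-/

set_option autoImplicit false

namespace Pool.Agent.Results.MP_443e5f_co.DistanceLaw

/-- `m` is an odd prime less than `2 n`. -/
def OddPrimeBelow (n m : ℕ) : Prop := m.Prime ∧ Odd m ∧ m < 2 * n

/-- The finite Goldbach graph `G_n` on `{0, 2, 4, …, 2 n}`: distinct `a`, `b` are adjacent iff
`(a + b)/2` and `|a - b|/2` are odd primes less than `2 n`. -/
def goldbach (n : ℕ) : SimpleGraph {a : ℕ // Even a ∧ a ≤ 2 * n} where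
  Adj a b := a ≠ b ∧ OddPrimeBelow n (((a : ℕ) + b) / 2) ∧ OddPrimeBelow n (Nat.dist a b / 2)
  symm := ⟨fun a b h => ⟨h.1.symm, by rw [add_comm (b : ℕ)]; exact h.2.1,
    by rw [Nat.dist_comm]; exact h.2.2⟩⟩
  loopless := ⟨fun _ h => h.1 rfl⟩

/-- The finite near Goldbach graph `G(n)` on `{2, 4, …, 2 n}`: distinct `a`, `b` are adjacent iff
each of `(a + b)/2` and `|a - b|/2` is `1` or an odd prime less than `2 n`. -/
def nearGoldbach (n : ℕ) : SimpleGraph {a : ℕ // Even a ∧ 2 ≤ a ∧ a ≤ 2 * n} where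
  Adj a b := a ≠ b ∧ (((a : ℕ) + b) / 2 = 1 ∨ OddPrimeBelow n (((a : ℕ) + b) / 2)) ∧
    (Nat.dist a b / 2 = 1 ∨ OddPrimeBelow n (Nat.dist a b / 2))
  symm := ⟨fun a b h => ⟨h.1.symm, by rw [add_comm (b : ℕ)]; exact h.2.1,
    by rw [Nat.dist_comm]; exact h.2.2⟩⟩
  loopless := ⟨fun _ h => h.1 rfl⟩

/-- The predicted distance of the vertices `a`, `b` (two even numbers); it depends only on `a`, `b` modulo `60`.
If `a ≡ b` modulo `4` it is `2` when both or none of `a`, `b` are divisible by `3` and `4` otherwise. If not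
`a ≡ b` modulo `4`, it is `3` when exactly one of `a`, `b` is divisible by `3`, `5` when none is, and when both
are divisible by `3` it is `5` if both are `±1` modulo `5` and `3` otherwise. -/
def predicted (a b : ℕ) : ℕ :=
  if a % 4 = b % 4 then (if (3 ∣ a ↔ 3 ∣ b) then 2 else 4)
  else if ¬ (3 ∣ a ↔ 3 ∣ b) then 3
  else if 3 ∣ a ∧ ¬ ((a % 5 = 1 ∨ a % 5 = 4) ∧ (b % 5 = 1 ∨ b % 5 = 4)) then 3
  else 5

/-- the number of the ordered pairs of vertices with the property `P` -/
noncomputable def count {V : Type} (P : V → V → Prop) : ℝ := ({p : V × V | P p.1 p.2}.ncard : ℝ)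

/-- The law of the distances of a graph `G` whose vertices are numbers (`val v` is the number of the vertex `v`),
with the error `C n ^ 2 / (log n) ^ 2`. Here `G.edist` is the distance of two vertices, `⊤` if they are not
connected by a path. -/
structure Law {V : Type} (G : SimpleGraph V) (val : V → ℕ) (C : ℝ) (U n : ℕ) : Prop where
  /-- the distance is longer than predicted (or infinite) for at most `n ^ 2 / (log n) ^ U` ordered pairs -/
  longer : count (fun u v => (predicted (val u) (val v) : ℕ∞) < G.edist u v) ≤ n ^ 2 / Real.log n ^ U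
  /-- it is shorter than predicted for about `(8 / 3) n ^ 2 / log n` ordered pairs -/
  shorter : |count (fun u v => G.edist u v < (predicted (val u) (val v) : ℕ∞)) - 8 / 3 * (n ^ 2 / Real.log n)| ≤
    C * (n ^ 2 / Real.log n ^ 2)
  two : |count (fun u v => G.edist u v = 2) - 5 / 18 * n ^ 2| ≤ C * (n ^ 2 / Real.log n ^ 2)
  three : |count (fun u v => G.edist u v = 3) - (121 / 450 + 8 / 3 / Real.log n) * n ^ 2| ≤
    C * (n ^ 2 / Real.log n ^ 2)
  four : |count (fun u v => G.edist u v = 4) - 2 / 9 * n ^ 2| ≤ C * (n ^ 2 / Real.log n ^ 2)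
  five : |count (fun u v => G.edist u v = 5) - (52 / 225 - 8 / 3 / Real.log n) * n ^ 2| ≤
    C * (n ^ 2 / Real.log n ^ 2)

open Finset Pool.Agent.H76.GD
open Pool.Agent.E8helper66.GB (OP R_lt dist_two half_add half_dist)
open Pool.Agent.R521.GG (R)

lemma predicted_eq {a b : ℕ} (ha : Even a) (hb : Even b) : predicted a b = D (a / 2) (b / 2) := by
  obtain ⟨x, rfl⟩ := ha
  obtain ⟨y, rfl⟩ := hb
  have e1 : (x + x) / 2 = x := by omega
  have e2 : (y + y) / 2 = y := by omega
  rw [e1, e2]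
  have f1 : ((x + x) % 4 = (y + y) % 4) ↔ x % 2 = y % 2 := by omega
  have f2 : 3 ∣ x + x ↔ 3 ∣ x := by omega
  have f3 : 3 ∣ y + y ↔ 3 ∣ y := by omega
  have f4 : ((x + x) % 5 = 1 ∨ (x + x) % 5 = 4) ↔ (x % 5 = 2 ∨ x % 5 = 3) := by omega
  have f5 : ((y + y) % 5 = 1 ∨ (y + y) % 5 = 4) ↔ (y % 5 = 2 ∨ y % 5 = 3) := by omega
  unfold predicted D
  simp only [f1, f2, f3, f4, f5]

lemma OP_of {n m : ℕ} (h : m = 1 ∨ OddPrimeBelow n m) : OP m := by
  rcases h with h | ⟨h1, h2, -⟩
  · exact Or.inl h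
  · exact Or.inr ⟨h1, h2⟩

lemma goldbach_model (n : ℕ) : Model (goldbach n) n
    (fun m => if hm : m ≤ n then ⟨2 * m, even_two_mul m, by omega⟩ else ⟨0, ⟨0, rfl⟩, by omega⟩)
    (fun v => v.1 / 2) where
  hφ := by
    intro m hm
    rw [mem_Icc] at hm
    simp only [hm.2, dif_pos]
    omega
  hinj := by
    intro u v huv
    apply Subtype.ext
    obtain ⟨⟨a, hu⟩, _⟩ := u.2
    obtain ⟨⟨b, hv⟩, _⟩ := v.2
    simp only at huv
    omega
  hbig := by
    intro v
    have := v.2.2
    show v.1 / 2 ≤ n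
    omega
  hadj := by
    intro a ha b hb hR
    obtain ⟨r1, r2, r3⟩ := R_lt ha hb hR
    have ha' := (mem_Icc.1 ha).2
    have hb' := (mem_Icc.1 hb).2
    simp only [ha', hb', dif_pos]
    refine ⟨?_, ⟨?_, ?_, ?_⟩, ⟨?_, ?_, ?_⟩⟩
    · intro h
      have := congrArg Subtype.val h
      simp only at this
      omega
    · show ((2 * a + 2 * b) / 2).Prime
      rw [← mul_add, Nat.mul_div_cancel_left _ (by norm_num)]
      exact hR.1.1
    · show Odd ((2 * a + 2 * b) / 2)
      rw [← mul_add, Nat.mul_div_cancel_left _ (by norm_num)]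
      exact hR.1.2
    · show (2 * a + 2 * b) / 2 < 2 * n
      omega
    · show (Nat.dist (2 * a) (2 * b) / 2).Prime
      rw [dist_two]
      exact hR.2.1
    · show Odd (Nat.dist (2 * a) (2 * b) / 2)
      rw [dist_two]
      exact hR.2.2
    · show Nat.dist (2 * a) (2 * b) / 2 < 2 * n
      rw [dist_two]
      exact r3
  hG := by
    intro u v huv
    obtain ⟨_, h5, h6⟩ := huv
    rw [half_add u.2.1 v.2.1] at h5
    rw [half_dist u.2.1 v.2.1] at h6
    exact ⟨OP_of (Or.inr h5), OP_of (Or.inr h6)⟩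

lemma near_model (n : ℕ) (hn1 : 1 ≤ n) : Model (nearGoldbach n) n
    (fun m => if hm : 1 ≤ m ∧ m ≤ n then ⟨2 * m, even_two_mul m, by omega, by omega⟩ else ⟨2, even_two, by omega, by omega⟩)
    (fun v => v.1 / 2) where
  hφ := by
    intro m hm
    rw [mem_Icc] at hm
    simp only [hm, and_self, dif_pos]
    omega
  hinj := by
    intro u v huv
    apply Subtype.ext
    obtain ⟨⟨a, hu⟩, _⟩ := u.2
    obtain ⟨⟨b, hv⟩, _⟩ := v.2
    simp only at huv
    omega
  hbig := by
    intro v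
    have := v.2.2
    show v.1 / 2 ≤ n
    omega
  hadj := by
    intro a ha b hb hR
    obtain ⟨r1, r2, r3⟩ := R_lt ha hb hR
    have ha' := mem_Icc.1 ha
    have hb' := mem_Icc.1 hb
    simp only [ha', hb', and_self, dif_pos]
    refine ⟨?_, Or.inr ⟨?_, ?_, ?_⟩, Or.inr ⟨?_, ?_, ?_⟩⟩
    · intro h
      have := congrArg Subtype.val h
      simp only at this
      omega
    · show ((2 * a + 2 * b) / 2).Prime
      rw [← mul_add, Nat.mul_div_cancel_left _ (by norm_num)]
      exact hR.1.1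
    · show Odd ((2 * a + 2 * b) / 2)
      rw [← mul_add, Nat.mul_div_cancel_left _ (by norm_num)]
      exact hR.1.2
    · show (2 * a + 2 * b) / 2 < 2 * n
      omega
    · show (Nat.dist (2 * a) (2 * b) / 2).Prime
      rw [dist_two]
      exact hR.2.1
    · show Odd (Nat.dist (2 * a) (2 * b) / 2)
      rw [dist_two]
      exact hR.2.2
    · show Nat.dist (2 * a) (2 * b) / 2 < 2 * n
      rw [dist_two]
      exact r3
  hG := by
    intro u v huv
    obtain ⟨_, h5, h6⟩ := huv
    rw [half_add u.2.1 v.2.1] at h5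
    rw [half_dist u.2.1 v.2.1] at h6
    exact ⟨OP_of h5, OP_of h6⟩

lemma law_of {V : Type} (G : SimpleGraph V) (val : V → ℕ) (hv : ∀ v, Even (val v)) (C : ℝ) (U n : ℕ)
    (h : LawH G (fun v => val v / 2) C U n) : Law G val C U n := by
  obtain ⟨h1, h2, h3, h4, h5, h6⟩ := h
  have e : ∀ u v, D (val u / 2) (val v / 2) = predicted (val u) (val v) := fun u v => (predicted_eq (hv u) (hv v)).symm
  simp only [e] at h1 h2
  exact ⟨h1, h2, h3, h4, h5, h6⟩

/-- The law of the distances of the Goldbach graphs: there is a constant `C > 0` such that for every `U` and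
all large `n` both graphs have the property `Law`. -/
theorem result : ∃ C : ℝ, 0 < C ∧ ∀ U : ℕ, ∃ N : ℕ, ∀ n : ℕ, N ≤ n →
    Law (goldbach n) Subtype.val C U n ∧ Law (nearGoldbach n) Subtype.val C U n := by
  have hPIG := E8helper64.GB.t_PIG
  have hREC := E8helper77.GB.t_REC
  have hCORE := E8helper23.GB.t_CORE hREC (E8helper64.GB.t_REL hREC) E8helper66.GB.t_QUAD
  have hTII := E8helper75.GB.t_TII E8helper62.GB.t_CS hCORE hPIG E8helper97.GB.t_CST
  have hTI := E8helper97.GB.t_TI hPIG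
  have hU3 := E8helper66.GB.t_U3 (E8helper77.GB.t_LAM hTII hTI) (E8helper70.GB.t_LZ hTII hTI)
  have hW := E8helper66.GB.t_ESTW (E8helper81.GB.t_EST hU3)
  have hTWO := E8helper98.GB.t_TWO hW E8helper54.GB.t_LOC
  have hBR := E8helper98.GB.t_BR hW (E8helper64.GB.t_EST3 hU3) E8helper77.GB.t_LOC3
  obtain ⟨c, K, hc, -, hm⟩ := R521.GG.main R521.GG.t_mom (R521.GG.t_codeg R521.GG.t_mert)
    (R521.GG.t_wsum R521.GG.t_mert) R906.GGF.t_gold R906.GGG.t_twin R521.GG.t_peel
  obtain ⟨C, hC, hlaw⟩ := law hW hTWO hBR ⟨c, hc, fun U => by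
    obtain ⟨n₀, h0⟩ := hm U
    refine ⟨n₀, fun n hn => ?_⟩
    obtain ⟨X, hX, h1, h2, -⟩ := h0 n hn
    exact ⟨X, hX, h1, h2⟩⟩
  refine ⟨C, hC, fun U => ?_⟩
  obtain ⟨N, hN⟩ := hlaw U
  refine ⟨N + 1, fun n hn => ?_⟩
  exact ⟨law_of _ _ (fun v => v.2.1) C U n (hN n (by omega) _ _ _ _ (goldbach_model n)),
    law_of _ _ (fun v => v.2.1) C U n (hN n (by omega) _ _ _ _ (near_model n (by omega)))⟩

end Pool.Agent.Results.MP_443e5f_co.DistanceLaw
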