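import Pool.Agent.H567.PP.Hard4

/-!
# Short edges in the Goldbach graphs: the degrees at all scales, in the residue classes of EVERY modulus

An edge of the finite Goldbach graph `G_n` or of the finite near Goldbach graph `G(n)` has the length `2 p`, where `p` is
the smaller one of its two primes, and the larger end point `a` of the edge is the sum of the two primes. The theorem
determines, for almost all vertices `a`, the number of the edges of ALL lengths between `a ^ (1 / 3 + ρ)` and `a` which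
go down from `a`: simultaneously for all `1 ≤ U ≤ V` with `a ^ (1 / 3 + ρ) ≤ V < a / 2` and `V - U ≥ V / (log a)^W`, the number
of the neighbours `b` of `a` with `a - 2 V ≤ b < a - 2 U` is the one which Hardy and Littlewood predict, up to the
factor `1 ± ε`. In particular almost all vertices have an edge of a length of at most `a ^ (1 / 3 + ρ)`. (For the edges of
a bounded or logarithmic length this is false: the library has long runs of vertices without such edges.)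

The same holds for almost all vertices of a residue class `r` modulo `q`, with `q a ^ (1 / 3 + ρ)` in place of
`a ^ (1 / 3 + ρ)`, for EVERY modulus `q ≤ (2 n) ^ (2 / 3 - ρ)`, up to at most `2 n / (q (log (2 n))^A)` of them, if `gcd(r, q)`
is not divisible by a member of a set `D` of at most `(log (2 n))^c` integers, whose radicals are all larger than
`(log (2 n))^B`. These are

* all classes `r` with `rad (gcd (r, q)) ≤ (log (2 n))^B`, for EVERY modulus `q`, and ALL classes, for instance the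
  multiples of `q`, for every modulus `q` with `rad q ≤ (log (2 n))^B` (such as `q = 10 ^ k`);
* all but at most `q / (log (2 n))^B` of the `q` residue classes, for EVERY modulus `q`;
* ALL classes of every modulus which is not divisible by a member of `D`.

The starting library has, for `q = 1`, bounds for the degrees of almost all vertices (edges of lengths of the order of
`n`, up to powers of `log n`).

Definition used (in `Pool.Agent.H560R3.GB`): `sing m = 2 C₂ ∏_{p ∣ m, p > 2} (p - 1) / (p - 2)`, the singular series,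
where `C₂ = ∏_{p > 2} (1 - 1 / (p - 1) ^ 2)` is the twin prime constant.

Proof: `H567/HW`, `H567/PP` (`reg_univ`, `PP/Hard4`); a sketch is in `Results/MP_dd84fd_nt/EveryModulusEveryClass.lean`.
-/

set_option autoImplicit false

namespace Pool.Agent.Results.MP_443e5f_co.EdgesAtAllScales

open Finset
open Pool.Agent.H560R3.GB (sing)

/-- `m` is an odd prime less than `2 n`. -/
def OddPrimeBelow (n m : ℕ) : Prop := m.Prime ∧ Odd m ∧ m < 2 * n

/-- The finite Goldbach graph `G_n` on `{0, 2, 4, …, 2 n}`: distinct `a`, `b` are adjacent iff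
`(a + b)/2` and `|a - b|/2` are odd primes less than `2 n`. -/
def goldbach (n : ℕ) : SimpleGraph {a : ℕ // Even a ∧ a ≤ 2 * n} where
  Adj a b := a ≠ b ∧ OddPrimeBelow n (((a : ℕ) + b) / 2) ∧ OddPrimeBelow n (Nat.dist a b / 2)
  symm := ⟨fun a b h => ⟨h.1.symm, by rw [add_comm (b : ℕ)]; exact h.2.1,
    by rw [Nat.dist_comm]; exact h.2.2⟩⟩
  loopless := ⟨fun _ h => h.1 rfl⟩

/-- The finite near Goldbach graph `G(n)` on `{2, 4, …, 2 n}`: distinct `a`, `b` are adjacent iff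
each of `(a + b)/2` and `|a - b|/2` is `1` or an odd prime less than `2 n`. -/
def nearGoldbach (n : ℕ) : SimpleGraph {a : ℕ // Even a ∧ 2 ≤ a ∧ a ≤ 2 * n} where
  Adj a b := a ≠ b ∧ (((a : ℕ) + b) / 2 = 1 ∨ OddPrimeBelow n (((a : ℕ) + b) / 2)) ∧
    (Nat.dist a b / 2 = 1 ∨ OddPrimeBelow n (Nat.dist a b / 2))
  symm := ⟨fun a b h => ⟨h.1.symm, by rw [add_comm (b : ℕ)]; exact h.2.1,
    by rw [Nat.dist_comm]; exact h.2.2⟩⟩
  loopless := ⟨fun _ h => h.1 rfl⟩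

/-- The radical: the product of the prime factors. -/
def rad (n : ℕ) : ℕ := ∏ p ∈ n.primeFactors, p

/-- The neighbours `b` of `a` with `a - 2 V ≤ b < a - 2 U`. -/
def nbrs {P : ℕ → Prop} (G : SimpleGraph {a : ℕ // P a}) (a : {a : ℕ // P a}) (U V : ℕ) : Set {a : ℕ // P a} :=
  {b | G.Adj a b ∧ (b : ℕ) + 2 * U < a ∧ (a : ℕ) ≤ b + 2 * V}

/-- For all `1 ≤ U ≤ V` with `q a ^ (1 / 3 + ρ) ≤ V < a / 2` and `V - U ≥ V / (log a)^W` the number of the neighbours `b` of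
`a` with `a - 2 V ≤ b < a - 2 U` is `sing a (V - U) / (log V log a)`, up to a relative error of at most `ε`. -/
def Law (ε ρ : ℝ) (W q : ℕ) {P : ℕ → Prop} (G : SimpleGraph {a : ℕ // P a}) (a : {a : ℕ // P a}) : Prop :=
  ∀ U V : ℕ, 1 ≤ U → U ≤ V → (q : ℝ) * ((a : ℕ) : ℝ) ^ (1 / 3 + ρ) ≤ V → 2 * V < (a : ℕ) →
    (V : ℝ) / Real.log ((a : ℕ) : ℝ) ^ W ≤ (V : ℝ) - U →
    |((nbrs G a U V).ncard : ℝ) - sing a * (((V : ℝ) - U) / (Real.log V * Real.log ((a : ℕ) : ℝ)))| ≤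
      ε * (sing a * (((V : ℝ) - U) / (Real.log V * Real.log ((a : ℕ) : ℝ))))

/-- The vertices `a ≡ r (mod q)` for which `Law ε ρ W q G a` is false. -/
def exceptional (ε ρ : ℝ) (W : ℕ) {P : ℕ → Prop} (G : SimpleGraph {a : ℕ // P a}) (q : ℕ) (r : ℤ) :
    Set {a : ℕ // P a} :=
  {a | ((a : ℕ) : ℤ) ≡ r [ZMOD q] ∧ ¬ Law ε ρ W q G a}

/-- The class `r` modulo `q` is excluded by `D`: a member of `D` divides `r` and `q`. -/
def Excluded (D : Finset ℕ) (q : ℕ) (r : ℤ) : Prop := ∃ d ∈ D, d ∣ Int.gcd r q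

/-- the neighbours and the representations -/
lemma card_nbrs {P : ℕ → Prop} (G : SimpleGraph {a : ℕ // P a}) (n : ℕ) (hP : ∀ b, Even b → 2 ≤ b → b ≤ 2 * n → P b)
    (hPe : ∀ b, P b → Even b ∧ b ≤ 2 * n)
    (hG : ∀ a b : {a : ℕ // P a}, (b : ℕ) + 4 ≤ a → 1 ≤ (b : ℕ) → (G.Adj a b ↔
      OddPrimeBelow n (((a : ℕ) + b) / 2) ∧ OddPrimeBelow n (((a : ℕ) - b) / 2)))
    (a : {a : ℕ // P a}) {U V : ℕ} (hU : 1 ≤ U) (hV : 2 * V < (a : ℕ)) (ha : 4 < (a : ℕ)) :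
    (nbrs G a U V).ncard = ((Ioc U V).filter (fun p => p.Prime ∧ ((a : ℕ) - p).Prime)).card := by
  obtain ⟨hae, han⟩ := hPe a a.2
  obtain ⟨k, hk⟩ := hae
  have key : (fun b : {a : ℕ // P a} => ((a : ℕ) - b) / 2) '' nbrs G a U V =
      (((Ioc U V).filter (fun p => p.Prime ∧ ((a : ℕ) - p).Prime) : Finset ℕ) : Set ℕ) := by
    ext p
    simp only [nbrs, Set.mem_ofPred_eq, Set.mem_image, coe_filter, mem_Ioc]
    constructor
    · rintro ⟨b, ⟨h1, h2, h3⟩, rfl⟩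
      obtain ⟨hbe, hbn⟩ := hPe b b.2
      obtain ⟨l, hl⟩ := hbe
      have hb1 : 1 ≤ (b : ℕ) := by omega
      rw [hG a b (by omega) hb1] at h1
      obtain ⟨⟨p1, p2, p3⟩, ⟨p4, p5, p6⟩⟩ := h1
      refine ⟨⟨by omega, by omega⟩, p4, ?_⟩
      have : (a : ℕ) - ((a : ℕ) - b) / 2 = ((a : ℕ) + b) / 2 := by omega
      rw [this]
      exact p1
    · rintro ⟨⟨h1, h2⟩, h3, h4⟩
      have hp2 : p ≠ 2 := by
        rintro rfl
        have h6 : (a : ℕ) - 2 = 2 := by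
          rcases h4.eq_two_or_odd with h | h
          · exact h
          · omega
        omega
      have hpo : Odd p := h3.odd_of_ne_two hp2
      obtain ⟨j, hj⟩ := hpo
      have hb : P ((a : ℕ) - 2 * p) := hP _ ⟨k - p, by omega⟩ (by omega) (by omega)
      refine ⟨⟨(a : ℕ) - 2 * p, hb⟩, ⟨?_, ?_, ?_⟩, ?_⟩
      · rw [hG a _ (by show (a : ℕ) - 2 * p + 4 ≤ a; omega) (by show 1 ≤ (a : ℕ) - 2 * p; omega)]
        have e1 : ((a : ℕ) + ((a : ℕ) - 2 * p)) / 2 = (a : ℕ) - p := by omega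
        have e2 : ((a : ℕ) - ((a : ℕ) - 2 * p)) / 2 = p := by omega
        show OddPrimeBelow n (((a : ℕ) + ((a : ℕ) - 2 * p)) / 2) ∧ OddPrimeBelow n (((a : ℕ) - ((a : ℕ) - 2 * p)) / 2)
        rw [e1, e2]
        exact ⟨⟨h4, ⟨k - j - 1, by omega⟩, by omega⟩, ⟨h3, ⟨j, hj⟩, by omega⟩⟩
      · show (a : ℕ) - 2 * p + 2 * U < a
        omega
      · show (a : ℕ) ≤ (a : ℕ) - 2 * p + 2 * V
        omega
      · show ((a : ℕ) - ((a : ℕ) - 2 * p)) / 2 = p
        omega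
  have hinj : Set.InjOn (fun b : {a : ℕ // P a} => ((a : ℕ) - b) / 2) (nbrs G a U V) := by
    intro b hb b' hb' h
    simp only at h
    obtain ⟨l, hl⟩ := (hPe b b.2).1
    obtain ⟨l', hl'⟩ := (hPe b' b'.2).1
    have h1 := hb.2.1
    have h2 := hb'.2.1
    apply Subtype.ext
    omega
  rw [← hinj.ncard_image, key, Set.ncard_coe_finset]

lemma adj_goldbach {n : ℕ} (a b : {a : ℕ // Even a ∧ a ≤ 2 * n}) (h : (b : ℕ) + 4 ≤ a) (_ : 1 ≤ (b : ℕ)) :
    (goldbach n).Adj a b ↔ OddPrimeBelow n (((a : ℕ) + b) / 2) ∧ OddPrimeBelow n (((a : ℕ) - b) / 2) := by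
  have e : Nat.dist a b = (a : ℕ) - b := Nat.dist_eq_sub_of_le_right (by omega)
  have hne : a ≠ b := by
    rintro rfl
    omega
  change (a ≠ b ∧ OddPrimeBelow n (((a : ℕ) + b) / 2) ∧ OddPrimeBelow n (Nat.dist a b / 2)) ↔ _
  rw [e]
  exact ⟨fun h => h.2, fun h => ⟨hne, h⟩⟩

lemma adj_near {n : ℕ} (a b : {a : ℕ // Even a ∧ 2 ≤ a ∧ a ≤ 2 * n}) (h : (b : ℕ) + 4 ≤ a) (_ : 1 ≤ (b : ℕ)) :
    (nearGoldbach n).Adj a b ↔ OddPrimeBelow n (((a : ℕ) + b) / 2) ∧ OddPrimeBelow n (((a : ℕ) - b) / 2) := by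
  have e : Nat.dist a b = (a : ℕ) - b := Nat.dist_eq_sub_of_le_right (by omega)
  have hne : a ≠ b := by
    rintro rfl
    omega
  change (a ≠ b ∧ (((a : ℕ) + b) / 2 = 1 ∨ OddPrimeBelow n (((a : ℕ) + b) / 2)) ∧
    (Nat.dist a b / 2 = 1 ∨ OddPrimeBelow n (Nat.dist a b / 2))) ↔ _
  rw [e]
  constructor
  · rintro ⟨-, h1 | h1, h2⟩
    · omega
    · rcases h2 with h2 | h2
      · omega
      · exact ⟨h1, h2⟩
  · rintro ⟨h1, h2⟩
    exact ⟨hne, Or.inr h1, Or.inr h2⟩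

theorem law_of {ε ρ : ℝ} {W q n : ℕ} {P : ℕ → Prop} (G : SimpleGraph {a : ℕ // P a})
    (hP : ∀ b, Even b → 2 ≤ b → b ≤ 2 * n → P b) (hPe : ∀ b, P b → Even b ∧ b ≤ 2 * n)
    (hG : ∀ a b : {a : ℕ // P a}, (b : ℕ) + 4 ≤ a → 1 ≤ (b : ℕ) → (G.Adj a b ↔
      OddPrimeBelow n (((a : ℕ) + b) / 2) ∧ OddPrimeBelow n (((a : ℕ) - b) / 2)))
    (a : {a : ℕ // P a}) (h : Pool.Agent.H567.HW.Full ε ρ W q a) : Law ε ρ W q G a := by
  intro U V hU hUV hV hVa hw
  rcases Nat.lt_or_ge 4 (a : ℕ) with ha | ha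
  · rw [card_nbrs G n hP hPe hG a hU hVa ha]
    exact h.2.2 U V hUV hV hVa.le (by omega) hw
  · exfalso
    have hV1 : V = 1 := by omega
    have hU1 : U = 1 := by omega
    have ha4 : (a : ℕ) = 4 := by
      obtain ⟨k, hk⟩ := (hPe a a.2).1
      omega
    rw [hV1, hU1, ha4] at hw
    have : 0 < Real.log ((4 : ℕ) : ℝ) := Real.log_pos (by norm_num)
    have h2 : (0 : ℝ) < ((1 : ℕ) : ℝ) / Real.log ((4 : ℕ) : ℝ) ^ W := by positivity
    simp only [sub_self] at hw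
    linarith

theorem card_exc {ε ρ : ℝ} {W q n : ℕ} {r : ℤ} {P : ℕ → Prop} (G : SimpleGraph {a : ℕ // P a})
    (hP : ∀ b, Even b → 2 ≤ b → b ≤ 2 * n → P b) (hPe : ∀ b, P b → Even b ∧ b ≤ 2 * n)
    (hG : ∀ a b : {a : ℕ // P a}, (b : ℕ) + 4 ≤ a → 1 ≤ (b : ℕ) → (G.Adj a b ↔
      OddPrimeBelow n (((a : ℕ) + b) / 2) ∧ OddPrimeBelow n (((a : ℕ) - b) / 2)))
    (hf : (Pool.Agent.H567.HW.excD (Pool.Agent.H567.HW.Full ε ρ W) (2 * (n : ℝ)) q r).Finite) :
    (exceptional ε ρ W G q r).ncard ≤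
      (Pool.Agent.H567.HW.excD (Pool.Agent.H567.HW.Full ε ρ W) (2 * (n : ℝ)) q r).ncard := by
  refine Set.ncard_le_ncard_of_injOn (fun a : {a : ℕ // P a} => (a : ℕ)) ?_ ?_ hf
  · rintro a ⟨h1, h2⟩
    obtain ⟨hae, han⟩ := hPe a a.2
    refine ⟨?_, ?_, hae.two_dvd, h1, fun h3 => h2 (law_of G hP hPe hG a h3)⟩
    · by_contra hcon
      apply h2
      intro U V hU hUV hV hVa hw
      omega
    · exact_mod_cast han
  · intro a _ b _ h
    exact Subtype.ext h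

open Classical in
/-- For all `ρ, ε > 0`, `W` and `A` there is `c` such that for all `B` and all sufficiently large `n` there is a finite
set `D` of at most `(log (2 n)) ^ c` integers, whose radicals are larger than `(log (2 n)) ^ B`, with the following
properties, for EVERY integer `q ≥ 1`. (a) A class `r` modulo `q` with `rad (gcd (r, q)) ≤ (log (2 n))^B` is not excluded
by `D`; (b) at most `q / (log (2 n))^B` of the classes modulo `q` are excluded by `D`; (c) if `q ≤ (2 n) ^ (2 / 3 - ρ)`, then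
for every integer `r` which is not excluded by `D` (modulo `q`) all but at most `2 n / (q (log (2 n))^A)` of the vertices
`a ≡ r (mod q)` of `G_n`, and of `G(n)`, satisfy `Law ε ρ W q`. -/
theorem result (ρ ε : ℝ) (hρ : 0 < ρ) (hε : 0 < ε) (W A : ℕ) :
    ∃ c : ℕ, ∀ B : ℕ, ∃ n₀ : ℕ, ∀ n : ℕ, n₀ ≤ n →
    ∃ D : Finset ℕ, (D.card : ℝ) ≤ Real.log (2 * (n : ℝ)) ^ c ∧ (∀ d ∈ D, Real.log (2 * (n : ℝ)) ^ B < (rad d : ℝ)) ∧
    ∀ q : ℕ, 1 ≤ q →
      (∀ r : ℤ, (rad (Int.gcd r q) : ℝ) ≤ Real.log (2 * (n : ℝ)) ^ B → ¬ Excluded D q r) ∧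
      (((range q).filter (fun r : ℕ => Excluded D q r)).card : ℝ) ≤ q / Real.log (2 * (n : ℝ)) ^ B ∧
      ∀ r : ℤ, ¬ Excluded D q r → (q : ℝ) ≤ (2 * (n : ℝ)) ^ (2 / 3 - ρ) →
        ((exceptional ε ρ W (goldbach n) q r).ncard : ℝ) ≤ 2 * (n : ℝ) / (q * Real.log (2 * (n : ℝ)) ^ A) ∧
        ((exceptional ε ρ W (nearGoldbach n) q r).ncard : ℝ) ≤ 2 * (n : ℝ) / (q * Real.log (2 * (n : ℝ)) ^ A) := by
  have hbase : Pool.Agent.H567.PP.Base (fun x q a => (q : ℝ) ≤ x ^ (2 / 3 - ρ) →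
      (Pool.Agent.H567.HW.excD (Pool.Agent.H567.HW.Full ε ρ W) x q a).Finite ∧
      ((Pool.Agent.H567.HW.excD (Pool.Agent.H567.HW.Full ε ρ W) x q a).ncard : ℝ) ≤ x / (q * Real.log x ^ A)) := by
    obtain ⟨c, h⟩ := Pool.Agent.H567.PP.reg_univ A W hρ hε
    refine ⟨c, fun A₀ => ?_⟩
    obtain ⟨x₀, h⟩ := h A₀
    refine ⟨x₀, fun x hx => ?_⟩
    obtain ⟨D, h1, h2, h3⟩ := h x hx
    exact ⟨D, h1, h2, fun q hq a ha hqx => h3 q hq hqx a ha⟩
  obtain ⟨c, h⟩ := Pool.Agent.H567.PP.base_final hbase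
  refine ⟨c, fun B => ?_⟩
  obtain ⟨x₀, h⟩ := h B
  refine ⟨⌈x₀⌉₊, fun n hn => ?_⟩
  have hx : x₀ ≤ 2 * (n : ℝ) := by
    have h1 : x₀ ≤ (⌈x₀⌉₊ : ℝ) := Nat.le_ceil _
    have h2 : (⌈x₀⌉₊ : ℝ) ≤ n := by exact_mod_cast hn
    have h3 : (0 : ℝ) ≤ n := Nat.cast_nonneg n
    linarith
  obtain ⟨D, h1, h2, h3⟩ := h (2 * (n : ℝ)) hx
  refine ⟨D, h1, h2, fun q hq => ?_⟩
  obtain ⟨h4, h5, h6⟩ := h3 q hq
  refine ⟨h4, h5, fun r hr hqn => ?_⟩
  obtain ⟨h7, h8⟩ := h6 r hr hqn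
  constructor
  · refine le_trans ?_ h8
    exact_mod_cast card_exc (n := n) (goldbach n) (fun b hb _ hb' => ⟨hb, hb'⟩) (fun b hb => hb)
      (fun a b => adj_goldbach a b) h7
  · refine le_trans ?_ h8
    exact_mod_cast card_exc (n := n) (nearGoldbach n) (fun b hb hb2 hb' => ⟨hb, hb2, hb'⟩)
      (fun b hb => ⟨hb.1, hb.2.2⟩) (fun a b => adj_near a b) h7

end Pool.Agent.Results.MP_443e5f_co.EdgesAtAllScales
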