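import Pool.Agent.H559.GO.Comb
import Pool.Agent.H559.GO.Gen
import Pool.Agent.H559.GO.Fd1
import Pool.Agent.H559.GO.Fd2
import Pool.Agent.H559.GO.Fin
import Pool.Agent.H559.IX.Nth
import Mathlib.Combinatorics.SimpleGraph.Diam

set_option autoImplicit false

/-!
# The Goldbach graphs of the random primes have diameter at most five

For every prime `q` a residue class `a q` modulo `q` is drawn uniformly and independently. The random primes are the
integers `v ≥ 3` which are, for all primes `q ≤ z v`, not in the class `0` modulo `q` if `q ≤ (log v) ^ c`, and not in the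
class `a q` modulo `q` if `q > (log v) ^ c`. This is the model of Banks, Ford and Tao (*Large prime gaps and
probabilistic models*) in which the small primes sieve out the class `0` as they do for the true primes. The sieving
limit `z` is any nondecreasing function for which `∏_{q ≤ z v} (1 - 1 / q)` is asymptotic to `1 / log v`; the choice `zBFT`
of Banks, Ford and Tao is one of them. The exponent `c` is any number larger than `1`.

Let `A` be the set of the random primes together with the prime `3` (the only multiple of `3` among the true odd primes; the graph of a set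
without multiples of `3` is never connected). The theorem: almost surely, for all large `n` the finite Goldbach graph
`G_n` and the finite near Goldbach graph `G(n)`, defined with the odd elements of `A` below `2 n` in place of the odd primes below `2 n`,
are connected and have diameter at most `5`.
-/

open MeasureTheory ProbabilityTheory Filter Topology

namespace Pool.Agent.Results.MP_443e5f_co.RandomGoldbachGraphs

/-- `V m = ∏ (1 - 1 / q)` over the primes `q ≤ m` -/
noncomputable def V (m : ℕ) : ℝ := ∏ q ∈ (Finset.range (m + 1)).filter Nat.Prime, (1 - 1 / (q : ℝ))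

/-- the classes `a q` are independent, and `a q` is uniform on `0, …, q - 1` for every prime `q` -/
structure Model {Ω : Type} [MeasurableSpace Ω] (P : Measure Ω) (a : ℕ → Ω → ℕ) : Prop where
  measurable : ∀ q, Measurable (a q)
  independent : iIndepFun a P
  uniform : ∀ q, q.Prime → ∀ r < q, P.real {ω | a q ω = r} = 1 / q

/-- the sieving limit of Banks, Ford and Tao: the largest `m` with `∏_{q ≤ m} (1 - 1 / q)⁻¹ ≤ log n` -/
noncomputable def zBFT (n : ℕ) : ℕ := sSup {m : ℕ | (V m)⁻¹ ≤ Real.log n}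

/-- the admissible sieving limits: the density of the random primes near `v` is asymptotic to `1 / log v` -/
def Limit (z : ℕ → ℕ) : Prop := Monotone z ∧ Tendsto (fun v => V (z v) * Real.log v) atTop (𝓝 1)

open Classical in
/-- the set of the random primes of a sample -/
def R {Ω : Type} (z : ℕ → ℕ) (c : ℝ) (a : ℕ → Ω → ℕ) (ω : Ω) : Set ℕ :=
  {v | 3 ≤ v ∧ ∀ q ≤ z v, q.Prime → v % q ≠ if (q : ℝ) ≤ Real.log v ^ c then 0 else a q ω}

/-- `m` is an odd element of `A` less than `2 n` -/
def OddBelow (A : Set ℕ) (n m : ℕ) : Prop := m ∈ A ∧ Odd m ∧ m < 2 * n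

/-- the finite Goldbach graph of `A` on `{0, 2, 4, …, 2 n}`: distinct `a`, `b` are adjacent iff
`(a + b)/2` and `|a - b|/2` are odd elements of `A` less than `2 n` -/
def goldbach (A : Set ℕ) (n : ℕ) : SimpleGraph {a : ℕ // Even a ∧ a ≤ 2 * n} where
  Adj a b := a ≠ b ∧ OddBelow A n (((a : ℕ) + b) / 2) ∧ OddBelow A n (Nat.dist a b / 2)
  symm := ⟨fun a b h => ⟨h.1.symm, by rw [add_comm (b : ℕ)]; exact h.2.1,
    by rw [Nat.dist_comm]; exact h.2.2⟩⟩
  loopless := ⟨fun _ h => h.1 rfl⟩

/-- the finite near Goldbach graph of `A` on `{2, 4, …, 2 n}`: distinct `a`, `b` are adjacent iff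
each of `(a + b)/2` and `|a - b|/2` is `1` or an odd element of `A` less than `2 n` -/
def nearGoldbach (A : Set ℕ) (n : ℕ) : SimpleGraph {a : ℕ // Even a ∧ 2 ≤ a ∧ a ≤ 2 * n} where
  Adj a b := a ≠ b ∧ (((a : ℕ) + b) / 2 = 1 ∨ OddBelow A n (((a : ℕ) + b) / 2)) ∧
    (Nat.dist a b / 2 = 1 ∨ OddBelow A n (Nat.dist a b / 2))
  symm := ⟨fun a b h => ⟨h.1.symm, by rw [add_comm (b : ℕ)]; exact h.2.1,
    by rw [Nat.dist_comm]; exact h.2.2⟩⟩
  loopless := ⟨fun _ h => h.1 rfl⟩

theorem half_add' (a b : ℕ) (ha : Even a) (hb : Even b) : (a + b) / 2 = a / 2 + b / 2 := by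
  obtain ⟨x, rfl⟩ := ha
  obtain ⟨y, rfl⟩ := hb
  omega

theorem half_dist' (a b : ℕ) (ha : Even a) (hb : Even b) : Nat.dist a b / 2 = Nat.dist (a / 2) (b / 2) := by
  obtain ⟨x, rfl⟩ := ha
  obtain ⟨y, rfl⟩ := hb
  unfold Nat.dist
  omega

theorem result :
    (∃ (Ω : Type) (_ : MeasurableSpace Ω) (P : Measure Ω) (a : ℕ → Ω → ℕ), Model P a) ∧ Limit zBFT ∧
    ∀ z : ℕ → ℕ, Limit z → ∀ c : ℝ, 1 < c →
      ∀ (Ω : Type) [MeasurableSpace Ω] (P : Measure Ω) (a : ℕ → Ω → ℕ), Model P a →
        ∀ᵐ ω ∂P, ∀ᶠ n : ℕ in atTop,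
          ((goldbach (R z c a ω ∪ {3}) n).Connected ∧ (goldbach (R z c a ω ∪ {3}) n).ediam ≤ 5) ∧
          ((nearGoldbach (R z c a ω ∪ {3}) n).Connected ∧ (nearGoldbach (R z c a ω ∪ {3}) n).ediam ≤ 5) := by
  classical
  refine ⟨?_, ⟨Pool.Agent.T2H32.BF.z0_mono, Pool.Agent.T2H32.BF.z0_lim⟩, ?_⟩
  · obtain ⟨Ω, i, P, a, h⟩ := Pool.Agent.T2H32.BF.exists_model
    exact ⟨Ω, i, P, a, h.measurable, h.independent, h.uniform⟩
  · intro z hz c hc Ω _ P a hmod
    have h : Pool.Agent.T2H32.BF.Model P a := ⟨hmod.measurable, hmod.independent, hmod.uniform⟩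
    filter_upwards [Pool.Agent.H559.GO.props Pool.Agent.H559.GO.t_gen Pool.Agent.H559.GO.t_fd1
      Pool.Agent.H559.GO.t_fd2 c hc z hz Ω P a h] with ω hω
    have e : Pool.Agent.H559.IX.R0 z c (fun q => a q ω) = R z c a ω := rfl
    rw [e] at hω
    filter_upwards [hω] with n hn
    obtain ⟨n3, p1, p2⟩ := hn
    set A : Set ℕ := R z c a ω ∪ {3} with hA
    have h3 : Pool.Agent.H559.GO.OB A n 3 := ⟨Or.inr rfl, by decide, by omega⟩
    constructor
    · have hw := Pool.Agent.H559.GO.t_comb {a : ℕ // Even a ∧ a ≤ 2 * n} (goldbach A n) (fun a => (a : ℕ) / 2) n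
        (Pool.Agent.H559.GO.OB A n) n3 (fun m hm => hm.2.1) h3 (fun u v huv g1 g2 => ⟨fun hh => huv (by rw [hh]),
          by rw [half_add' _ _ u.2.1 v.2.1]; exact g1, by rw [half_dist' _ _ u.2.1 v.2.1]; exact g2⟩)
        (fun u v huv => by
          have h1 := u.2.1
          have h2 := v.2.1
          obtain ⟨x, hx⟩ := h1
          obtain ⟨y, hy⟩ := h2
          refine Subtype.ext ?_
          omega)
        (fun u => by
          have := u.2.2
          omega)
        (fun s _ hs => ⟨⟨2 * s, even_two_mul s, by omega⟩, by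
          show 2 * s / 2 = s
          omega⟩) p1 p2
      refine ⟨?_, ?_⟩
      · have : Nonempty {a : ℕ // Even a ∧ a ≤ 2 * n} := ⟨⟨0, by simp, by omega⟩⟩
        exact ⟨fun u v => by
          obtain ⟨w, _⟩ := hw u v
          exact ⟨w⟩⟩
      · rw [SimpleGraph.ediam_le_iff]
        intro u v
        obtain ⟨w, hw5⟩ := hw u v
        exact (SimpleGraph.Walk.edist_le w).trans (by exact_mod_cast hw5)
    · have hw := Pool.Agent.H559.GO.t_comb {a : ℕ // Even a ∧ 2 ≤ a ∧ a ≤ 2 * n} (nearGoldbach A n) (fun a => (a : ℕ) / 2) n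
        (Pool.Agent.H559.GO.OB A n) n3 (fun m hm => hm.2.1) h3 (fun u v huv g1 g2 => ⟨fun hh => huv (by rw [hh]),
          Or.inr (by rw [half_add' _ _ u.2.1 v.2.1]; exact g1), Or.inr (by rw [half_dist' _ _ u.2.1 v.2.1]; exact g2)⟩)
        (fun u v huv => by
          have h1 := u.2.1
          have h2 := v.2.1
          obtain ⟨x, hx⟩ := h1
          obtain ⟨y, hy⟩ := h2
          refine Subtype.ext ?_
          omega)
        (fun u => by
          have := u.2.2.2
          omega)
        (fun s h0 hs => ⟨⟨2 * s, even_two_mul s, by omega, by omega⟩, by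
          show 2 * s / 2 = s
          omega⟩) p1 p2
      refine ⟨?_, ?_⟩
      · have : Nonempty {a : ℕ // Even a ∧ 2 ≤ a ∧ a ≤ 2 * n} := ⟨⟨2, even_two, le_rfl, by omega⟩⟩
        exact ⟨fun u v => by
          obtain ⟨w, _⟩ := hw u v
          exact ⟨w⟩⟩
      · rw [SimpleGraph.ediam_le_iff]
        intro u v
        obtain ⟨w, hw5⟩ := hw u v
        exact (SimpleGraph.Walk.edist_le w).trans (by exact_mod_cast hw5)

end Pool.Agent.Results.MP_443e5f_co.RandomGoldbachGraphs
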